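import Mathlib

/-!
# Wirtinger calculus: `HasW F a b ξ` says that `F : ℂ → E` is real differentiable at `ξ` with
differential `h ↦ h • a + conj h • b`, i.e. `∂F = a`, `∂̄F = b`.
-/

open ComplexConjugate Topology

noncomputable section

namespace CMC46

variable {E : Type*} [NormedAddCommGroup E] [NormedSpace ℂ E]

/-- the real linear map `h ↦ h • a + conj h • b` -/
def wirt (a b : E) : ℂ →L[ℝ] E :=
  (ContinuousLinearMap.id ℝ ℂ).smulRight a + (Complex.conjCLE : ℂ →L[ℝ] ℂ).smulRight b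

@[simp] lemma wirt_apply (a b : E) (h : ℂ) : wirt a b h = h • a + conj h • b := rfl

def HasW (F : ℂ → E) (a b : E) (ξ : ℂ) : Prop := HasFDerivAt (𝕜 := ℝ) F (wirt a b) ξ

lemma wirt_ext {a b a' b' : E} (h : wirt a b = wirt a' b') : a = a' ∧ b = b' := by
  have h1 := DFunLike.congr_fun h 1
  have h2 := DFunLike.congr_fun h Complex.I
  simp only [wirt_apply, map_one, one_smul, Complex.conj_I, neg_smul] at h1 h2
  have h3 : Complex.I • (a - b) = Complex.I • (a' - b') := by
    rw [smul_sub, smul_sub, sub_eq_add_neg, sub_eq_add_neg]; exact h2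
  have h4 : a - b = a' - b' := by
    have := congrArg (fun x => (-Complex.I) • x) h3
    simpa [smul_smul] using this
  have h5 : (2 : ℂ) • a = (2 : ℂ) • a' := by
    have := congrArg₂ (· + ·) h1 h4
    simp only [add_add_sub_cancel] at this
    rw [two_smul, two_smul]; exact this
  have h6 : a = a' := by
    have := congrArg (fun x => (2 : ℂ)⁻¹ • x) h5
    simpa [smul_smul] using this
  refine ⟨h6, ?_⟩
  rw [h6] at h1
  exact add_left_cancel h1

lemma HasW.unique {F : ℂ → E} {a b a' b' : E} {ξ : ℂ} (h : HasW F a b ξ) (h' : HasW F a' b' ξ) :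
    a = a' ∧ b = b' := wirt_ext (HasFDerivAt.unique h h')

/-- every real linear map is a `wirt` -/
lemma eq_wirt (L : ℂ →L[ℝ] E) :
    L = wirt ((2 : ℂ)⁻¹ • (L 1 - Complex.I • L Complex.I))
      ((2 : ℂ)⁻¹ • (L 1 + Complex.I • L Complex.I)) := by
  have h2 : (2 : ℂ)⁻¹ * 2 = 1 := by norm_num
  have key : ∀ h : ℂ, L h = (h.re : ℂ) • L 1 + (h.im : ℂ) • L Complex.I := by
    intro h
    have h1 : h = h.re • (1 : ℂ) + h.im • Complex.I := by
      apply Complex.ext <;> simp
    conv_lhs => rw [h1]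
    rw [map_add, map_smul, map_smul, Complex.coe_smul, Complex.coe_smul]
  ext h
  · rw [wirt_apply, key h]
    obtain ⟨x, y⟩ := h
    have e1 : (⟨x, y⟩ : ℂ) = (x : ℂ) + y * Complex.I := by apply Complex.ext <;> simp
    rw [e1]
    simp only [map_add, map_mul, Complex.conj_ofReal, Complex.conj_I]
    simp only [Complex.add_re, Complex.ofReal_re, Complex.mul_re, Complex.I_re, mul_zero,
      Complex.ofReal_im, Complex.I_im, mul_one, sub_self, add_zero, Complex.add_im,
      Complex.mul_im, zero_add]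
    set u := L 1
    set v := L Complex.I
    have hI : Complex.I * Complex.I = -1 := Complex.I_mul_I
    have : ((x : ℂ) + y * Complex.I) • ((2 : ℂ)⁻¹ • (u - Complex.I • v)) +
        ((x : ℂ) + y * -Complex.I) • ((2 : ℂ)⁻¹ • (u + Complex.I • v)) =
        (((x : ℂ) + y * Complex.I) * (2 : ℂ)⁻¹ + ((x : ℂ) + y * -Complex.I) * (2 : ℂ)⁻¹) • u +
        (-(((x : ℂ) + y * Complex.I) * (2 : ℂ)⁻¹ * Complex.I) +
          ((x : ℂ) + y * -Complex.I) * (2 : ℂ)⁻¹ * Complex.I) • v := by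
      module
    rw [this]
    congr 2
    · ring
    · linear_combination ((y : ℂ)) * hI

lemma exists_hasW {F : ℂ → E} {ξ : ℂ} (h : DifferentiableAt ℝ F ξ) : ∃ a b, HasW F a b ξ :=
  ⟨_, _, by
    have := h.hasFDerivAt
    rw [eq_wirt (fderiv ℝ F ξ)] at this
    exact this⟩

lemma HasW.differentiableAt {F : ℂ → E} {a b : E} {ξ : ℂ} (h : HasW F a b ξ) :
    DifferentiableAt ℝ F ξ := HasFDerivAt.differentiableAt h

lemma HasW.fderiv {F : ℂ → E} {a b : E} {ξ : ℂ} (h : HasW F a b ξ) :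
    fderiv ℝ F ξ = wirt a b := HasFDerivAt.fderiv h

lemma HasW.congr {F G : ℂ → E} {a b : E} {ξ : ℂ} (h : HasW F a b ξ) (hG : G =ᶠ[𝓝 ξ] F) :
    HasW G a b ξ := HasFDerivAt.congr_of_eventuallyEq h hG

lemma HasW.cast {F : ℂ → E} {a b a' b' : E} {ξ : ℂ} (h : HasW F a b ξ) (ha : a = a')
    (hb : b = b') : HasW F a' b' ξ := ha ▸ hb ▸ h

lemma hasW_const (c : E) (ξ : ℂ) : HasW (fun _ => c) 0 0 ξ := by
  have h : wirt (0 : E) 0 = 0 := by ext h <;> simp
  unfold HasW
  rw [h]
  exact hasFDerivAt_const c ξ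

lemma hasW_id (ξ : ℂ) : HasW (fun z => z) (1 : ℂ) 0 ξ := by
  have h : wirt (1 : ℂ) 0 = ContinuousLinearMap.id ℝ ℂ := by ext h <;> simp
  unfold HasW
  rw [h]
  exact hasFDerivAt_id ξ

lemma hasW_conj (ξ : ℂ) : HasW (fun z => conj z) (0 : ℂ) 1 ξ := by
  have h : wirt (0 : ℂ) 1 = (Complex.conjCLE : ℂ →L[ℝ] ℂ) := by ext h <;> simp
  unfold HasW
  rw [h]
  exact (Complex.conjCLE : ℂ →L[ℝ] ℂ).hasFDerivAt

lemma HasW.add {F G : ℂ → E} {a b a' b' : E} {ξ : ℂ} (h : HasW F a b ξ) (h' : HasW G a' b' ξ) :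
    HasW (fun z => F z + G z) (a + a') (b + b') ξ := by
  have e : wirt (a + a') (b + b') = wirt a b + wirt a' b' := by
    refine ContinuousLinearMap.ext (fun x => ?_)
    simp only [wirt_apply, smul_add, add_apply]
    abel
  unfold HasW
  rw [e]
  exact HasFDerivAt.add h h'

lemma HasW.neg {F : ℂ → E} {a b : E} {ξ : ℂ} (h : HasW F a b ξ) :
    HasW (fun z => - F z) (-a) (-b) ξ := by
  have e : wirt (-a) (-b) = - wirt a b := by
    refine ContinuousLinearMap.ext (fun x => ?_)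
    simp only [wirt_apply, smul_neg, neg_apply, neg_add]
  unfold HasW
  rw [e]
  exact HasFDerivAt.neg h

lemma HasW.sub {F G : ℂ → E} {a b a' b' : E} {ξ : ℂ} (h : HasW F a b ξ) (h' : HasW G a' b' ξ) :
    HasW (fun z => F z - G z) (a - a') (b - b') ξ := by
  have := h.add h'.neg
  simpa only [sub_eq_add_neg] using this

lemma HasW.const_smul {F : ℂ → E} {a b : E} {ξ : ℂ} (c : ℂ) (h : HasW F a b ξ) :
    HasW (fun z => c • F z) (c • a) (c • b) ξ := by
  have e : wirt (c • a) (c • b) = c • wirt a b := by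
    refine ContinuousLinearMap.ext (fun x => ?_)
    simp only [wirt_apply, smul_apply, smul_add]
    rw [smul_comm c x, smul_comm c (conj x)]
  unfold HasW
  rw [e]
  exact HasFDerivAt.const_smul h c

/-- composition with a (complex) continuous linear map -/
lemma HasW.clm {G : Type*} [NormedAddCommGroup G] [NormedSpace ℂ G] {F : ℂ → E} {a b : E} {ξ : ℂ}
    (L : E →L[ℂ] G) (h : HasW F a b ξ) : HasW (fun z => L (F z)) (L a) (L b) ξ := by
  have e : wirt (L a) (L b) = (L.restrictScalars ℝ).comp (wirt a b) := by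
    refine ContinuousLinearMap.ext (fun x => ?_)
    simp
  unfold HasW
  rw [e]
  exact ((L.restrictScalars ℝ).hasFDerivAt).comp ξ h

section mul
variable {R : Type*} [NormedCommRing R] [NormedAlgebra ℂ R]

lemma HasW.mul {F G : ℂ → R} {a b a' b' : R} {ξ : ℂ} (h : HasW F a b ξ) (h' : HasW G a' b' ξ) :
    HasW (fun z => F z * G z) (a * G ξ + F ξ * a') (b * G ξ + F ξ * b') ξ := by
  have h1 := HasFDerivAt.mul h h'
  have e : wirt (a * G ξ + F ξ * a') (b * G ξ + F ξ * b') = F ξ • wirt a' b' + G ξ • wirt a b := by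
    refine ContinuousLinearMap.ext (fun x => ?_)
    simp only [wirt_apply, add_apply, smul_apply,
      smul_eq_mul, smul_add, mul_add, mul_smul_comm]
    rw [mul_comm (G ξ) a, mul_comm (G ξ) b]
    abel
  unfold HasW
  rw [e]
  exact h1

lemma HasW.st [StarRing R] [NormedStarGroup R] [StarModule ℂ R] {F : ℂ → R} {a b : R} {ξ : ℂ}
    (h : HasW F a b ξ) : HasW (fun z => star (F z)) (star b) (star a) ξ := by
  have h1 := HasFDerivAt.star h
  have e : wirt (star b) (star a) = ((starL' ℝ : R ≃L[ℝ] R) : R →L[ℝ] R) ∘L wirt a b := by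
    refine ContinuousLinearMap.ext (fun x => ?_)
    simp [star_smul, add_comm]
  unfold HasW
  rw [e]
  exact h1
end mul

/-- product of a complex valued and a vector valued function -/
lemma HasW.smul {f : ℂ → ℂ} {F : ℂ → E} {p q : ℂ} {a b : E} {ξ : ℂ} (h : HasW f p q ξ)
    (h' : HasW F a b ξ) :
    HasW (fun z => f z • F z) (p • F ξ + f ξ • a) (q • F ξ + f ξ • b) ξ := by
  have h1 := HasFDerivAt.smul h h'
  have e : wirt (p • F ξ + f ξ • a) (q • F ξ + f ξ • b) =
      f ξ • wirt a b + (wirt p q).smulRight (F ξ) := by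
    refine ContinuousLinearMap.ext (fun x => ?_)
    simp only [wirt_apply, add_apply, smul_apply,
      ContinuousLinearMap.smulRight_apply, smul_eq_mul]
    module
  unfold HasW
  rw [e]
  exact h1

lemma HasW.inv {f : ℂ → ℂ} {p q ξ : ℂ} (h : HasW f p q ξ) (h0 : f ξ ≠ 0) :
    HasW (fun z => (f z)⁻¹) (-p / (f ξ) ^ 2) (-q / (f ξ) ^ 2) ξ := by
  have h1 : HasDerivAt (fun z : ℂ => z⁻¹) (-((f ξ) ^ 2)⁻¹) (f ξ) := hasDerivAt_inv h0
  have h2 := ((h1.hasFDerivAt.restrictScalars ℝ)).comp ξ h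
  have e : wirt (-p / (f ξ) ^ 2) (-q / (f ξ) ^ 2) = ((ContinuousLinearMap.toSpanSingleton ℂ
      (-((f ξ) ^ 2)⁻¹)).restrictScalars ℝ).comp (wirt p q) := by
    refine ContinuousLinearMap.ext (fun x => ?_)
    simp
    field_simp
    ring
  unfold HasW
  rw [e]
  exact h2

lemma hasW_of_hasDerivAt {F : ℂ → E} {a : E} {ξ : ℂ} (h : HasDerivAt F a ξ) : HasW F a 0 ξ := by
  have h1 := h.hasFDerivAt.restrictScalars ℝ
  have e : wirt a 0 = (ContinuousLinearMap.toSpanSingleton ℂ a).restrictScalars ℝ := by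
    refine ContinuousLinearMap.ext (fun x => ?_)
    simp
  unfold HasW
  rw [e]
  exact h1

/-- derivative along a curve -/
lemma HasW.comp_hasDerivAt {F : ℂ → E} {a b : E} {γ : ℝ → ℂ} {γ' : ℂ} (t : ℝ)
    (h : HasW F a b (γ t)) (hγ : HasDerivAt γ γ' t) :
    HasDerivAt (fun s => F (γ s)) (γ' • a + conj γ' • b) t := by
  have := HasFDerivAt.comp_hasDerivAt t h hγ
  exact this

/-- derivatives stay in a closed subspace -/
lemma HasW.mem {F : ℂ → E} {a b : E} {ξ : ℂ} (h : HasW F a b ξ) {V : Submodule ℂ E}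
    (hV : IsClosed (V : Set E)) (hF : ∀ᶠ z in 𝓝 ξ, F z ∈ V) : a ∈ V ∧ b ∈ V := by
  have key : ∀ u : ℂ, wirt a b u ∈ V := by
    intro u
    have h1 : HasDerivAt (fun t : ℝ => F (ξ + t • u)) (wirt a b u) 0 := by
      have hl : HasDerivAt (fun t : ℝ => ξ + t • u) u 0 := by
        have := ((hasDerivAt_id (0 : ℝ)).smul_const u).const_add ξ
        simpa using this
      have h' : HasFDerivAt (𝕜 := ℝ) F (wirt a b) (ξ + (0 : ℝ) • u) := by
        rw [zero_smul, add_zero]; exact h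
      exact h'.comp_hasDerivAt 0 hl
    rw [hasDerivAt_iff_tendsto_slope] at h1
    refine hV.mem_of_tendsto h1 ?_
    have h2 : Filter.Tendsto (fun t : ℝ => ξ + t • u) (𝓝 0) (𝓝 ξ) := by
      have : Continuous (fun t : ℝ => ξ + t • u) := by fun_prop
      have h3 := this.tendsto 0
      simpa using h3
    have h3 := (h2.eventually hF).filter_mono (nhdsWithin_le_nhds (s := {(0 : ℝ)}ᶜ))
    filter_upwards [h3] with t ht
    have h0 : F (ξ + (0 : ℝ) • u) ∈ V := by
      have := hF.self_of_nhds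
      simpa using this
    rw [slope]
    simp only [vsub_eq_sub, sub_zero]
    rw [← Complex.coe_smul]
    exact V.smul_mem _ (V.sub_mem ht h0)
  have k1 := key 1
  have k2 := key Complex.I
  have e1 : a = (2 : ℂ)⁻¹ • (wirt a b 1 - Complex.I • wirt a b Complex.I) := by
    simp only [wirt_apply, map_one, one_smul, Complex.conj_I]
    have hI : Complex.I * Complex.I = -1 := Complex.I_mul_I
    have : (2 : ℂ)⁻¹ • (a + b - Complex.I • (Complex.I • a + (-Complex.I) • b)) =
        ((2 : ℂ)⁻¹ - (2 : ℂ)⁻¹ * (Complex.I * Complex.I)) • a +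
        ((2 : ℂ)⁻¹ + (2 : ℂ)⁻¹ * (Complex.I * Complex.I)) • b := by module
    rw [this, hI]
    module
  have e2 : b = (2 : ℂ)⁻¹ • (wirt a b 1 + Complex.I • wirt a b Complex.I) := by
    simp only [wirt_apply, map_one, one_smul, Complex.conj_I]
    have hI : Complex.I * Complex.I = -1 := Complex.I_mul_I
    have : (2 : ℂ)⁻¹ • (a + b + Complex.I • (Complex.I • a + (-Complex.I) • b)) =
        ((2 : ℂ)⁻¹ + (2 : ℂ)⁻¹ * (Complex.I * Complex.I)) • a +
        ((2 : ℂ)⁻¹ - (2 : ℂ)⁻¹ * (Complex.I * Complex.I)) • b := by module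
    rw [this, hI]
    module
  constructor
  · rw [e1]
    exact V.smul_mem _ (V.sub_mem k1 (V.smul_mem _ k2))
  · rw [e2]
    exact V.smul_mem _ (V.add_mem k1 (V.smul_mem _ k2))

end CMC46
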