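import Pool.Agent.Lib.MP_479d4c_gt.H44.Cls
import Pool.Agent.Lib.MP_479d4c_gt.H44.Evd
import Pool.Agent.Lib.MP_479d4c_gt.H59.Aid
import Pool.Agent.Lib.MP_479d4c_gt.H82.Pos
import Pool.Agent.Lib.MP_479d4c_gt.H82.Geo
import Pool.Agent.Lib.MP_479d4c_gt.H82.Geo2
import Pool.Agent.Lib.MP_479d4c_gt.H17.Pla
import Pool.Agent.Lib.MP_479d4c_gt.H17.Bcv
import Pool.Agent.Lib.MP_479d4c_gt.H77.InjSid
import Pool.Agent.Lib.MP_479d4c_gt.H85.ExiSt
import Pool.Agent.Lib.MP_479d4c_gt.H95.Low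
import Pool.Agent.Lib.MP_479d4c_gt.H95.Fin

set_option autoImplicit false

/-!
Assembly of the modules of the short proof (S/Paper.md).
-/

namespace CMC82.H95

theorem final : MainQ (fun X U => AnalyticOnNhd ℝ X U) :=
  have cls : ClsS := CMC82.H44.cls_st
  have evd : EvdS := CMC82.H44.evd_st cls
  have aid : AidS := CMC82.H59.aid_st cls evd
  have clo : CloS := CMC82.H59.clo_st cls evd
  have pos : PosS := CMC82.H82.pos_st cls aid clo
  have geo : GeoS := CMC82.H82.geo_st cls evd aid clo pos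
  have geo2 : Geo2S := CMC82.H82.geo2_st cls evd aid clo pos
  fin_an CMC.exi_st cls (low_st cls evd) pos geo geo2
    (CMC82.H17.pla_st cls geo pos) CMC82.H17.bcv_st CMC82.H77.inj_st CMC82.H77.sid_st

end CMC82.H95
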